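import Pool.Agent.Lib_helper37.NF.FV

set_option autoImplicit false

namespace Pool.Agent.NF

open Set Filter Topology MeasureTheory ComplexConjugate

/-- the algebraic identity behind the derivative of the area -/
theorem aread_alg (a b a' b' : ℂ) :
    (conj a * a').im - (conj b * b').im =
      (conj (-Complex.I * (a' + b')) * (a - b)).re +
        ((conj b' * (a - b)).im + (conj b * (a' - b')).im) := by
  simp only [Complex.mul_im, Complex.mul_re, Complex.conj_re, Complex.conj_im, Complex.sub_re,
    Complex.sub_im, Complex.neg_re, Complex.neg_im, Complex.I_re, Complex.I_im, Complex.add_re,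
    Complex.add_im]
  ring

/-- BLOCK AREAD: derivative of the area functional -/
theorem aread_proof (γ γx γxx γt : ℝ → ℝ → ℂ) (h : Crv γ γx γxx γt) (t : ℝ) (ht : 0 < t) :
    HasDerivAt (fun s => (1 / 2 : ℝ) * ∫ x in (0 : ℝ)..1, (conj (γ s x) * γx s x).im)
      ((∫ x in (0 : ℝ)..1, (conj (γt t x) * γx t x).im) +
        (1 / 2 : ℝ) * ((conj (γ t 1) * γt t 1).im - (conj (γ t 0) * γt t 0).im)) t := by
  have h0 : (0 : ℝ) ∈ Icc (0 : ℝ) 1 := by simp
  have h1 : (1 : ℝ) ∈ Icc (0 : ℝ) 1 := by simp
  have cK : ContinuousOn (fun z : ℝ × ℝ => -Complex.I * (γx z.1 z.2 + γx t z.2))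
      (Ioi (0 : ℝ) ×ˢ Icc (0 : ℝ) 1) := by
    refine continuousOn_const.mul (h.cx.add ?_)
    exact (fv_slice h.cx ht).comp continuousOn_snd (fun z hz => hz.2)
  have I1 := fv_int h isOpen_Ioi Subset.rfl (K := fun s x => -Complex.I * (γx s x + γx t x)) cK ht
  have hend : ∀ x ∈ Icc (0 : ℝ) 1,
      HasDerivAt (fun s => (conj (γ t x) * (γ s x - γ t x)).im) (conj (γ t x) * γt t x).im t := by
    intro x hx
    have d1 : HasDerivAt (fun s => γ s x - γ t x) (γt t x) t := (h.ht t x ht hx).sub_const _
    have d2 := (Complex.imCLM.hasFDerivAt.comp_hasDerivAt t (d1.const_mul (conj (γ t x))))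
    exact d2
  have Q := (I1.add ((hend 1 h1).sub (hend 0 h0))).const_mul (1 / 2 : ℝ)
  -- the difference of the areas
  have hkey : ∀ s, 0 < s → (∫ x in (0 : ℝ)..1, (conj (γ s x) * γx s x).im) =
      (∫ x in (0 : ℝ)..1, (conj (γ t x) * γx t x).im) +
      ((∫ x in (0 : ℝ)..1, (conj (-Complex.I * (γx s x + γx t x)) * (γ s x - γ t x)).re) +
        ((conj (γ t 1) * (γ s 1 - γ t 1)).im - (conj (γ t 0) * (γ s 0 - γ t 0)).im)) := by
    intro s hs
    have cs := fv_curve_cont h hs
    have ct := fv_curve_cont h ht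
    have cxs : ContinuousOn (γx s) (Icc (0 : ℝ) 1) := fv_slice h.cx hs
    have cxt : ContinuousOn (γx t) (Icc (0 : ℝ) 1) := fv_slice h.cx ht
    have ii : ∀ {f : ℝ → ℝ}, ContinuousOn f (Icc (0 : ℝ) 1) → IntervalIntegrable f volume 0 1 :=
      fun hf => ContinuousOn.intervalIntegrable (by rwa [uIcc_of_le zero_le_one])
    have c1 : ContinuousOn (fun x => (conj (γ s x) * γx s x).im) (Icc (0 : ℝ) 1) :=
      Complex.continuous_im.comp_continuousOn
        ((Complex.continuous_conj.comp_continuousOn cs).mul cxs)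
    have c2 : ContinuousOn (fun x => (conj (γ t x) * γx t x).im) (Icc (0 : ℝ) 1) :=
      Complex.continuous_im.comp_continuousOn
        ((Complex.continuous_conj.comp_continuousOn ct).mul cxt)
    have c3 : ContinuousOn (fun x => (conj (-Complex.I * (γx s x + γx t x)) *
        (γ s x - γ t x)).re) (Icc (0 : ℝ) 1) :=
      Complex.continuous_re.comp_continuousOn
        ((Complex.continuous_conj.comp_continuousOn (continuousOn_const.mul (cxs.add cxt))).mul
          (cs.sub ct))
    have c4 : ContinuousOn (fun x => (conj (γx t x) * (γ s x - γ t x)).im +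
        (conj (γ t x) * (γx s x - γx t x)).im) (Icc (0 : ℝ) 1) :=
      (Complex.continuous_im.comp_continuousOn
        ((Complex.continuous_conj.comp_continuousOn cxt).mul (cs.sub ct))).add
      (Complex.continuous_im.comp_continuousOn
        ((Complex.continuous_conj.comp_continuousOn ct).mul (cxs.sub cxt)))
    have c5 : ContinuousOn (fun x => (conj (γ t x) * (γ s x - γ t x)).im) (Icc (0 : ℝ) 1) :=
      Complex.continuous_im.comp_continuousOn
        ((Complex.continuous_conj.comp_continuousOn ct).mul (cs.sub ct))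
    have hder : ∀ x ∈ Ioo (0 : ℝ) 1, HasDerivAt (fun x => (conj (γ t x) * (γ s x - γ t x)).im)
        ((conj (γx t x) * (γ s x - γ t x)).im + (conj (γ t x) * (γx s x - γx t x)).im) x := by
      intro x hx
      have hx' : x ∈ Icc (0 : ℝ) 1 := Ioo_subset_Icc_self hx
      have hn : Icc (0 : ℝ) 1 ∈ 𝓝 x := Icc_mem_nhds hx.1 hx.2
      have d2 : HasDerivAt (γ s) (γx s x) x := (h.hx s x hs hx').hasDerivAt hn
      have d3 : HasDerivAt (γ t) (γx t x) x := (h.hx t x ht hx').hasDerivAt hn
      have d4 : HasDerivAt (fun x => conj (γ t x)) (conj (γx t x)) x := d3.star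
      have d5 := d4.mul (d2.sub d3)
      have d6 := (Complex.imCLM.hasFDerivAt.comp_hasDerivAt x d5)
      have : Complex.imCLM (conj (γx t x) * (γ s x - γ t x) + conj (γ t x) * (γx s x - γx t x)) =
          (conj (γx t x) * (γ s x - γ t x)).im + (conj (γ t x) * (γx s x - γx t x)).im := by
        rw [map_add]; rfl
      rw [← this]
      exact d6
    have h1 := intervalIntegral.integral_eq_sub_of_hasDerivAt_of_le zero_le_one c5 hder (ii c4)
    have c6 : ContinuousOn (fun x => (conj (-Complex.I * (γx s x + γx t x)) *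
        (γ s x - γ t x)).re + ((conj (γx t x) * (γ s x - γ t x)).im +
        (conj (γ t x) * (γx s x - γx t x)).im)) (Icc (0 : ℝ) 1) := c3.add c4
    rw [← h1, ← intervalIntegral.integral_add (ii c3) (ii c4),
      ← intervalIntegral.integral_add (ii c2) (ii c6)]
    refine intervalIntegral.integral_congr fun x _ => ?_
    have := aread_alg (γ s x) (γ t x) (γx s x) (γx t x)
    show (conj (γ s x) * γx s x).im = (conj (γ t x) * γx t x).im + _
    rw [← this]
    ring
  have hfin : HasDerivAt (fun s => (1 / 2 : ℝ) * ∫ x in (0 : ℝ)..1, (conj (γ s x) * γx s x).im)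
      ((1 / 2 : ℝ) * ((∫ x in (0 : ℝ)..1, (conj (-Complex.I * (γx t x + γx t x)) * γt t x).re) +
        ((conj (γ t 1) * γt t 1).im - (conj (γ t 0) * γt t 0).im))) t := by
    have Q2 := Q.const_add ((1 / 2 : ℝ) * ∫ x in (0 : ℝ)..1, (conj (γ t x) * γx t x).im)
    refine Q2.congr_of_eventuallyEq ?_
    filter_upwards [Ioi_mem_nhds ht] with s hs
    rw [hkey s hs, mul_add]
    rfl
  have e1 : (∫ x in (0 : ℝ)..1, (conj (γt t x) * γx t x).im) =
      (1 / 2 : ℝ) * ∫ x in (0 : ℝ)..1, (conj (-Complex.I * (γx t x + γx t x)) * γt t x).re := by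
    rw [← intervalIntegral.integral_const_mul]
    refine intervalIntegral.integral_congr fun x _ => ?_
    simp only [Complex.mul_im, Complex.mul_re, Complex.conj_re, Complex.conj_im,
      Complex.neg_re, Complex.neg_im, Complex.I_re, Complex.I_im, Complex.add_re,
      Complex.add_im]
    ring
  rw [e1, ← mul_add]
  exact hfin

end Pool.Agent.NF
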