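import Pool.Agent.Lib_helper34.NF.Defs

set_option autoImplicit false

namespace Pool.Agent.NF

open Set Filter Topology MeasureTheory ComplexConjugate

/-- continuity in the space variable from joint continuity -/
theorem fv_slice {E : Type} [TopologicalSpace E] {K : ℝ → ℝ → E} {U : Set ℝ}
    (cK : ContinuousOn (fun z : ℝ × ℝ => K z.1 z.2) (U ×ˢ Icc (0 : ℝ) 1)) {s : ℝ} (hs : s ∈ U) :
    ContinuousOn (K s) (Icc (0 : ℝ) 1) := by
  have h1 : ContinuousOn (fun x : ℝ => ((s, x) : ℝ × ℝ)) (Icc (0 : ℝ) 1) := by fun_prop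
  exact cK.comp h1 (fun x hx => ⟨hs, hx⟩)

theorem fv_curve_cont {γ γx γxx γt : ℝ → ℝ → ℂ} (h : Crv γ γx γxx γt) {s : ℝ} (hs : 0 < s) :
    ContinuousOn (γ s) (Icc (0 : ℝ) 1) :=
  fun x hx => (h.hx s x hs hx).continuousWithinAt

/-- the main differentiation lemma -/
theorem fv_int {γ γx γxx γt : ℝ → ℝ → ℂ} (h : Crv γ γx γxx γt) {U : Set ℝ} (hU : IsOpen U)
    (hU0 : U ⊆ Ioi 0) {K : ℝ → ℝ → ℂ}
    (cK : ContinuousOn (fun z : ℝ × ℝ => K z.1 z.2) (U ×ˢ Icc (0 : ℝ) 1)) {t : ℝ} (ht : t ∈ U) :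
    HasDerivAt (fun s => ∫ x in (0 : ℝ)..1, (conj (K s x) * (γ s x - γ t x)).re)
      (∫ x in (0 : ℝ)..1, (conj (K t x) * γt t x).re) t := by
  obtain ⟨δ, hδ, hδU⟩ := Metric.isOpen_iff.1 hU t ht
  set r := δ / 2 with hr
  have hr0 : 0 < r := by rw [hr]; linarith
  have hIcc : Icc (t - r) (t + r) ⊆ U := by
    intro s hs
    apply hδU
    rw [Metric.mem_ball, Real.dist_eq, abs_lt]
    constructor <;> linarith [hs.1, hs.2]
  have hcomp : IsCompact (Icc (t - r) (t + r) ×ˢ Icc (0 : ℝ) 1) := isCompact_Icc.prod isCompact_Icc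
  have hsub : (Icc (t - r) (t + r) ×ˢ Icc (0 : ℝ) 1) ⊆ U ×ˢ Icc (0 : ℝ) 1 :=
    prod_mono hIcc Subset.rfl
  have hsub' : (Icc (t - r) (t + r) ×ˢ Icc (0 : ℝ) 1) ⊆ Ioi (0 : ℝ) ×ˢ Icc (0 : ℝ) 1 :=
    prod_mono (hIcc.trans hU0) Subset.rfl
  obtain ⟨MK, hMK⟩ := hcomp.exists_bound_of_continuousOn (cK.mono hsub)
  obtain ⟨Mt, hMt⟩ := hcomp.exists_bound_of_continuousOn (h.ct.mono hsub')
  have ht0 : t ∈ Icc (t - r) (t + r) := ⟨by linarith, by linarith⟩
  have hMK0 : 0 ≤ MK := le_trans (norm_nonneg _) (hMK (t, 0) ⟨ht0, by simp⟩)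
  have hMt0 : 0 ≤ Mt := le_trans (norm_nonneg _) (hMt (t, 0) ⟨ht0, by simp⟩)
  have hlip : ∀ s ∈ Icc (t - r) (t + r), ∀ x ∈ Icc (0 : ℝ) 1, ‖γ s x - γ t x‖ ≤ Mt * ‖s - t‖ := by
    intro s hs x hx
    refine (convex_Icc (t - r) (t + r)).norm_image_sub_le_of_norm_hasDerivWithin_le
      (f := fun s => γ s x) (f' := fun s => γt s x) ?_ ?_ ht0 hs
    · intro u hu
      exact (h.ht u x (hU0 (hIcc hu)) hx).hasDerivWithinAt
    · intro u hu
      exact hMt (u, x) ⟨hu, hx⟩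
  have hnear : ∀ᶠ s in 𝓝[≠] t, s ∈ Icc (t - r) (t + r) ∧ s ≠ t := by
    have h1 : ∀ᶠ s in 𝓝 t, s ∈ Icc (t - r) (t + r) := Icc_mem_nhds (by linarith) (by linarith)
    filter_upwards [nhdsWithin_le_nhds h1, self_mem_nhdsWithin] with s h1 h2
    exact ⟨h1, h2⟩
  rw [hasDerivAt_iff_tendsto_slope]
  have e1 : ∀ s, slope (fun s => ∫ x in (0 : ℝ)..1, (conj (K s x) * (γ s x - γ t x)).re) t s =
      ∫ x in (0 : ℝ)..1, (s - t)⁻¹ * (conj (K s x) * (γ s x - γ t x)).re := by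
    intro s
    rw [slope_def_module]
    have : ∫ x in (0 : ℝ)..1, (conj (K t x) * (γ t x - γ t x)).re = 0 := by simp
    rw [this, sub_zero, intervalIntegral.integral_const_mul, smul_eq_mul]
  have e2 : slope (fun s => ∫ x in (0 : ℝ)..1, (conj (K s x) * (γ s x - γ t x)).re) t =
      fun s => ∫ x in (0 : ℝ)..1, (s - t)⁻¹ * (conj (K s x) * (γ s x - γ t x)).re := funext e1
  rw [e2]
  refine intervalIntegral.tendsto_integral_filter_of_dominated_convergence (fun _ => MK * Mt)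
    ?_ ?_ ?_ ?_
  · filter_upwards [hnear] with s hs
    have hsU : s ∈ U := hIcc hs.1
    have c1 := fv_slice cK hsU
    have c2 := fv_curve_cont h (hU0 hsU)
    have c3 := fv_curve_cont h (hU0 ht)
    have c4 : ContinuousOn (fun x => (s - t)⁻¹ * (conj (K s x) * (γ s x - γ t x)).re)
        (Icc (0 : ℝ) 1) :=
      continuousOn_const.mul (Complex.continuous_re.comp_continuousOn
        ((Complex.continuous_conj.comp_continuousOn c1).mul (c2.sub c3)))
    rw [uIoc_of_le zero_le_one]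
    exact (c4.mono Ioc_subset_Icc_self).aestronglyMeasurable measurableSet_Ioc
  · filter_upwards [hnear] with s hs
    filter_upwards with x hx
    rw [uIoc_of_le zero_le_one] at hx
    have hx' : x ∈ Icc (0 : ℝ) 1 := Ioc_subset_Icc_self hx
    have h1 := hlip s hs.1 x hx'
    have h2 := hMK (s, x) ⟨hs.1, hx'⟩
    have hst : 0 < ‖s - t‖ := norm_pos_iff.2 (sub_ne_zero.2 hs.2)
    rw [norm_mul, norm_inv]
    have h3 : ‖(conj (K s x) * (γ s x - γ t x)).re‖ ≤ MK * (Mt * ‖s - t‖) := by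
      refine le_trans (Complex.abs_re_le_norm _) ?_
      rw [norm_mul, RCLike.norm_conj]
      exact mul_le_mul h2 h1 (norm_nonneg _) hMK0
    calc ‖s - t‖⁻¹ * ‖(conj (K s x) * (γ s x - γ t x)).re‖ ≤ ‖s - t‖⁻¹ * (MK * (Mt * ‖s - t‖)) := by
          gcongr
      _ = MK * Mt := by field_simp
  · exact intervalIntegrable_const
  · filter_upwards with x hx
    rw [uIoc_of_le zero_le_one] at hx
    have hx' : x ∈ Icc (0 : ℝ) 1 := Ioc_subset_Icc_self hx
    have h1 := (h.ht t x (hU0 ht) hx')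
    rw [hasDerivAt_iff_tendsto_slope] at h1
    have h2 : Tendsto (fun s => K s x) (𝓝[≠] t) (𝓝 (K t x)) := by
      have h3 : ContinuousOn (fun s : ℝ => ((s, x) : ℝ × ℝ)) U := by fun_prop
      have h4 : ContinuousOn (fun s => K s x) U := cK.comp h3 (fun s hs => ⟨hs, hx'⟩)
      exact (h4.continuousAt (hU.mem_nhds ht)).tendsto.mono_left nhdsWithin_le_nhds
    have h3 : Tendsto (fun s => (conj (K s x) * slope (fun s => γ s x) t s).re) (𝓝[≠] t)
        (𝓝 (conj (K t x) * γt t x).re) :=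
      (Complex.continuous_re.tendsto _).comp
        (((Complex.continuous_conj.tendsto _).comp h2).mul h1)
    refine h3.congr fun s => ?_
    rw [slope_def_module]
    have : conj (K s x) * ((s - t)⁻¹ • (γ s x - γ t x)) =
        ((s - t)⁻¹ : ℝ) • (conj (K s x) * (γ s x - γ t x)) := by
      rw [mul_smul_comm]
    rw [this, Complex.smul_re, smul_eq_mul]

/-- squeezing derivatives -/
theorem fv_squeeze {I q₁ q₂ : ℝ → ℝ} {L t : ℝ} (h₁ : HasDerivAt q₁ L t) (h₂ : HasDerivAt q₂ L t)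
    (h₁0 : q₁ t = 0) (h₂0 : q₂ t = 0)
    (h : ∀ᶠ s in 𝓝 t, q₁ s ≤ I s - I t ∧ I s - I t ≤ q₂ s) : HasDerivAt I L t := by
  rw [hasDerivAt_iff_isLittleO] at h₁ h₂ ⊢
  rw [h₁0] at h₁
  rw [h₂0] at h₂
  have h3 := (h₁.norm_left).add (h₂.norm_left)
  refine (Asymptotics.IsBigO.of_bound 1 ?_).trans_isLittleO h3
  filter_upwards [h] with s hs
  rw [one_mul]
  have e1 := abs_nonneg (q₁ s - 0 - (s - t) • L)
  have e2 := abs_nonneg (q₂ s - 0 - (s - t) • L)
  have e3 := neg_abs_le (q₁ s - 0 - (s - t) • L)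
  have e4 := le_abs_self (q₂ s - 0 - (s - t) • L)
  rw [Real.norm_eq_abs, Real.norm_eq_abs, Real.norm_eq_abs, Real.norm_eq_abs,
    abs_of_nonneg (add_nonneg e1 e2), abs_le]
  constructor <;> linarith [hs.1, hs.2]

/-- integration by parts -/
theorem fv_parts {γ γx γxx γt : ℝ → ℝ → ℂ} (h : Crv γ γx γxx γt) {V Vx : ℝ → ℂ}
    (hV : ∀ x ∈ Icc (0 : ℝ) 1, HasDerivWithinAt V (Vx x) (Icc (0 : ℝ) 1) x)
    (cVx : ContinuousOn Vx (Icc (0 : ℝ) 1)) {s t : ℝ} (hs : 0 < s) (ht : 0 < t) :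
    ∫ x in (0 : ℝ)..1, (conj (V x) * (γx s x - γx t x)).re =
      (conj (V 1) * (γ s 1 - γ t 1)).re - (conj (V 0) * (γ s 0 - γ t 0)).re -
        ∫ x in (0 : ℝ)..1, (conj (Vx x) * (γ s x - γ t x)).re := by
  have cV : ContinuousOn V (Icc (0 : ℝ) 1) := fun x hx => (hV x hx).continuousWithinAt
  have cs := fv_curve_cont h hs
  have ct := fv_curve_cont h ht
  have cxs : ContinuousOn (γx s) (Icc (0 : ℝ) 1) := fv_slice h.cx hs
  have cxt : ContinuousOn (γx t) (Icc (0 : ℝ) 1) := fv_slice h.cx ht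
  have c1 : ContinuousOn (fun x => (conj (V x) * (γx s x - γx t x)).re) (Icc (0 : ℝ) 1) :=
    Complex.continuous_re.comp_continuousOn
      ((Complex.continuous_conj.comp_continuousOn cV).mul (cxs.sub cxt))
  have c2 : ContinuousOn (fun x => (conj (Vx x) * (γ s x - γ t x)).re) (Icc (0 : ℝ) 1) :=
    Complex.continuous_re.comp_continuousOn
      ((Complex.continuous_conj.comp_continuousOn cVx).mul (cs.sub ct))
  have c3 : ContinuousOn (fun x => (conj (V x) * (γ s x - γ t x)).re) (Icc (0 : ℝ) 1) :=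
    Complex.continuous_re.comp_continuousOn
      ((Complex.continuous_conj.comp_continuousOn cV).mul (cs.sub ct))
  have i1 : IntervalIntegrable (fun x => (conj (V x) * (γx s x - γx t x)).re) volume 0 1 :=
    ContinuousOn.intervalIntegrable (by rwa [uIcc_of_le zero_le_one])
  have i2 : IntervalIntegrable (fun x => (conj (Vx x) * (γ s x - γ t x)).re) volume 0 1 :=
    ContinuousOn.intervalIntegrable (by rwa [uIcc_of_le zero_le_one])
  have hder : ∀ x ∈ Ioo (0 : ℝ) 1, HasDerivAt (fun x => (conj (V x) * (γ s x - γ t x)).re)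
      ((conj (Vx x) * (γ s x - γ t x)).re + (conj (V x) * (γx s x - γx t x)).re) x := by
    intro x hx
    have hx' : x ∈ Icc (0 : ℝ) 1 := Ioo_subset_Icc_self hx
    have hn : Icc (0 : ℝ) 1 ∈ 𝓝 x := Icc_mem_nhds hx.1 hx.2
    have d1 : HasDerivAt V (Vx x) x := (hV x hx').hasDerivAt hn
    have d2 : HasDerivAt (γ s) (γx s x) x := (h.hx s x hs hx').hasDerivAt hn
    have d3 : HasDerivAt (γ t) (γx t x) x := (h.hx t x ht hx').hasDerivAt hn
    have d4 : HasDerivAt (fun x => conj (V x)) (conj (Vx x)) x := d1.star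
    have d5 := d4.mul (d2.sub d3)
    have d6 := (Complex.reCLM.hasFDerivAt.comp_hasDerivAt x d5)
    have : Complex.reCLM (conj (Vx x) * (γ s x - γ t x) + conj (V x) * (γx s x - γx t x)) =
        (conj (Vx x) * (γ s x - γ t x)).re + (conj (V x) * (γx s x - γx t x)).re := by
      rw [map_add]; rfl
    rw [← this]
    exact d6
  have h1 := intervalIntegral.integral_eq_sub_of_hasDerivAt_of_le zero_le_one c3 hder (i2.add i1)
  rw [intervalIntegral.integral_add i2 i1] at h1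
  linarith

theorem fv_proof (γ γx γxx γt : ℝ → ℝ → ℂ) (h : Crv γ γx γxx γt) (U : Set ℝ) (hU : IsOpen U)
    (hU0 : U ⊆ Ioi 0) (G : ℝ → ℝ → ℝ) (W Wx : ℝ → ℝ → ℂ)
    (cG : ContinuousOn (fun z : ℝ × ℝ => G z.1 z.2) (U ×ˢ Icc (0 : ℝ) 1))
    (hW : ∀ t ∈ U, ∀ x ∈ Icc (0 : ℝ) 1, HasDerivWithinAt (W t) (Wx t x) (Icc (0 : ℝ) 1) x)
    (cW : ContinuousOn (fun z : ℝ × ℝ => W z.1 z.2) (U ×ˢ Icc (0 : ℝ) 1))
    (cWx : ContinuousOn (fun z : ℝ × ℝ => Wx z.1 z.2) (U ×ˢ Icc (0 : ℝ) 1))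
    (hconv : ∀ t ∈ U, ∀ s ∈ U, ∀ x ∈ Icc (0 : ℝ) 1,
      (conj (W t x) * (γx s x - γx t x)).re ≤ G s x - G t x)
    (t : ℝ) (ht : t ∈ U) :
    HasDerivAt (fun s => ∫ x in (0 : ℝ)..1, G s x)
      ((conj (W t 1) * γt t 1).re - (conj (W t 0) * γt t 0).re -
        ∫ x in (0 : ℝ)..1, (conj (Wx t x) * γt t x).re) t := by
  have h0 : (0 : ℝ) ∈ Icc (0 : ℝ) 1 := by simp
  have h1 : (1 : ℝ) ∈ Icc (0 : ℝ) 1 := by simp
  have ht0 : 0 < t := hU0 ht
  -- end terms
  have hend : ∀ (c : ℝ → ℂ), ContinuousAt c t → ∀ x ∈ Icc (0 : ℝ) 1,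
      HasDerivAt (fun s => (conj (c s) * (γ s x - γ t x)).re) (conj (c t) * γt t x).re t := by
    intro c hc x hx
    have d1 := h.ht t x ht0 hx
    rw [hasDerivAt_iff_tendsto_slope] at d1 ⊢
    have h3 : Tendsto (fun s => (conj (c s) * slope (fun s => γ s x) t s).re) (𝓝[≠] t)
        (𝓝 (conj (c t) * γt t x).re) :=
      (Complex.continuous_re.tendsto _).comp
        (((Complex.continuous_conj.tendsto _).comp
          (hc.tendsto.mono_left nhdsWithin_le_nhds)).mul d1)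
    refine h3.congr fun s => ?_
    rw [slope_def_module, slope_def_module]
    have : conj (c s) * ((s - t)⁻¹ • (γ s x - γ t x)) =
        ((s - t)⁻¹ : ℝ) • (conj (c s) * (γ s x - γ t x)) := by
      rw [mul_smul_comm]
    rw [this, Complex.smul_re]
    simp
  have hWt : ∀ x ∈ Icc (0 : ℝ) 1, ContinuousAt (fun s => W s x) t := by
    intro x hx
    have h3 : ContinuousOn (fun s : ℝ => ((s, x) : ℝ × ℝ)) U := by fun_prop
    have h4 : ContinuousOn (fun s => W s x) U := cW.comp h3 (fun s hs => ⟨hs, hx⟩)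
    exact h4.continuousAt (hU.mem_nhds ht)
  have cK : ContinuousOn (fun z : ℝ × ℝ => Wx t z.2) (U ×ˢ Icc (0 : ℝ) 1) :=
    (fv_slice cWx ht).comp continuousOn_snd (fun z hz => hz.2)
  have I1 := fv_int h hU hU0 (K := fun _ x => Wx t x) cK ht
  have I2 := fv_int h hU hU0 cWx ht
  have Q1 := ((hend (fun _ => W t 1) continuousAt_const 1 h1).sub
    (hend (fun _ => W t 0) continuousAt_const 0 h0)).sub I1
  have Q2 := ((hend (fun s => W s 1) (hWt 1 h1) 1 h1).sub
    (hend (fun s => W s 0) (hWt 0 h0) 0 h0)).sub I2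
  refine fv_squeeze Q1 Q2 (by simp) (by simp) ?_
  filter_upwards [hU.mem_nhds ht] with s hs
  have hs0 : 0 < s := hU0 hs
  have iG : ∀ u ∈ U, IntervalIntegrable (G u) volume 0 1 := fun u hu =>
    ContinuousOn.intervalIntegrable (by rw [uIcc_of_le zero_le_one]; exact fv_slice cG hu)
  have iW : ∀ u ∈ U, IntervalIntegrable (fun x => (conj (W u x) * (γx s x - γx t x)).re)
      volume 0 1 := by
    intro u hu
    apply ContinuousOn.intervalIntegrable
    rw [uIcc_of_le zero_le_one]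
    exact Complex.continuous_re.comp_continuousOn
      ((Complex.continuous_conj.comp_continuousOn (fv_slice cW hu)).mul
        ((fv_slice h.cx hs0).sub (fv_slice h.cx ht0)))
  have hdiff : (∫ x in (0 : ℝ)..1, G s x) - ∫ x in (0 : ℝ)..1, G t x =
      ∫ x in (0 : ℝ)..1, (G s x - G t x) :=
    (intervalIntegral.integral_sub (iG s hs) (iG t ht)).symm
  have p1 := fv_parts h (hW t ht) (fv_slice cWx ht) hs0 ht0
  have p2 := fv_parts h (hW s hs) (fv_slice cWx hs) hs0 ht0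
  constructor
  · show (conj (W t 1) * (γ s 1 - γ t 1)).re - (conj (W t 0) * (γ s 0 - γ t 0)).re -
      (∫ x in (0 : ℝ)..1, (conj (Wx t x) * (γ s x - γ t x)).re) ≤ _
    rw [← p1, hdiff]
    exact intervalIntegral.integral_mono_on zero_le_one (iW t ht) ((iG s hs).sub (iG t ht))
      (fun x hx => hconv t ht s hs x hx)
  · show _ ≤ (conj (W s 1) * (γ s 1 - γ t 1)).re - (conj (W s 0) * (γ s 0 - γ t 0)).re -
      (∫ x in (0 : ℝ)..1, (conj (Wx s x) * (γ s x - γ t x)).re)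
    rw [← p2, hdiff]
    refine intervalIntegral.integral_mono_on zero_le_one ((iG s hs).sub (iG t ht)) (iW s hs)
      (fun x hx => ?_)
    have h3 := hconv s hs t ht x hx
    have h4 : (conj (W s x) * (γx t x - γx s x)).re = -(conj (W s x) * (γx s x - γx t x)).re := by
      rw [← Complex.neg_re]
      congr 1
      ring
    rw [h4] at h3
    linarith

end Pool.Agent.NF
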